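import Mathlib

/-!
# A matroid polytope contained in another one which is not a cell of any matroid subdivision

Both matroids have rank `3` on `{0, ..., 7}`.  In `M` the elements `0, ..., 5` form a copy of the
cycle matroid of `K_4` with lines `{0,1,2}`, `{0,3,4}`, `{1,3,5}`, `{2,4,5}`, and `6, 7` are in
general position.  In `M'` the elements `1, 2` are parallel, `A = {0, ..., 5}` is a line, and
`6, 7` are in general position.

If `M'` were a cell of a matroid subdivision of `P_M`, then there would be a cell `P_N` on the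
other side of the facet `x(A) = 2` of `P_{M'}`.  Then `{0,1,6}`, `{1,5,6}`, `{2,5,6}`, `{3,4,6}` are bases of `N`, `{1,2,6}` and the four lines of `M` are not, and some
basis of `N` is contained in `A`; this is impossible.
-/

set_option autoImplicit false

namespace Pool.Agent.Results.MP_454fc7_co.NotACell

open Set

section Defs

variable {n : ℕ}

/-- The vertex `e_B`. -/
noncomputable def ind (B : Set (Fin n)) : Fin n → ℝ := B.indicator 1

/-- The matroid polytope `P_M = conv {e_B : B ∈ 𝓑(M)}`. -/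
def polytope (M : Matroid (Fin n)) : Set (Fin n → ℝ) :=
  convexHull ℝ {x | ∃ B, M.IsBase B ∧ x = ind B}

/-- `F` is a face of the polytope `P` (the empty set and `P` are faces). -/
def IsFace (P F : Set (Fin n → ℝ)) : Prop :=
  F = ∅ ∨ ∃ c : Fin n → ℝ, F = {x | x ∈ P ∧ ∀ y ∈ P, ∑ i, c i * y i ≤ ∑ i, c i * x i}

/-- `M` is not a direct sum of two matroids on nonempty ground sets. -/
def Connected (M : Matroid (Fin n)) : Prop :=
  M.E.Nonempty ∧ ¬ ∃ (N₁ N₂ : Matroid (Fin n)) (h : Disjoint N₁.E N₂.E),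
    N₁.E.Nonempty ∧ N₂.E.Nonempty ∧ M = N₁.disjointSum N₂ h

/-- `𝒟` is (the set of matroids of the maximal cells of) a matroid subdivision of `P_M`: a finite
set of matroids on `[n]` whose polytopes cover exactly `P_M`, and the polytopes of any two members
of `𝒟` intersect in a common face. -/
structure IsSubdivision (M : Matroid (Fin n)) (𝒟 : Set (Matroid (Fin n))) : Prop where
  finite : 𝒟.Finite
  ground : ∀ N ∈ 𝒟, N.E = univ
  union : ⋃ N ∈ 𝒟, polytope N = polytope M
  face : ∀ N₁ ∈ 𝒟, ∀ N₂ ∈ 𝒟, IsFace (polytope N₁) (polytope N₁ ∩ polytope N₂) ∧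
    IsFace (polytope N₂) (polytope N₁ ∩ polytope N₂)

end Defs

/-! ### Encoding of sets -/

/-- the set encoded by `s` -/
def S (s : ℕ) : Set (Fin 8) := {i | s.testBit i = true}

/-- bounded quantifiers -/
def allN : ℕ → (ℕ → Bool) → Bool
  | 0, _ => true
  | n + 1, f => f n && allN n f

def anyN : ℕ → (ℕ → Bool) → Bool
  | 0, _ => false
  | n + 1, f => f n || anyN n f

theorem allN_iff (n : ℕ) (f : ℕ → Bool) : allN n f = true ↔ ∀ i < n, f i = true := by
  induction n with
  | zero => simp [allN]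
  | succ n ih =>
    simp only [allN, Bool.and_eq_true, ih]
    constructor
    · rintro ⟨h1, h2⟩ i hi
      rcases Nat.lt_succ_iff_lt_or_eq.1 hi with h | rfl
      · exact h2 i h
      · exact h1
    · intro h
      exact ⟨h n (Nat.lt_succ_self n), fun i hi => h i (Nat.lt_succ_of_lt hi)⟩

theorem anyN_iff (n : ℕ) (f : ℕ → Bool) : anyN n f = true ↔ ∃ i < n, f i = true := by
  induction n with
  | zero => simp [anyN]
  | succ n ih =>
    simp only [anyN, Bool.or_eq_true, ih]
    constructor
    · rintro (h | ⟨i, hi, h⟩)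
      · exact ⟨n, Nat.lt_succ_self n, h⟩
      · exact ⟨i, Nat.lt_succ_of_lt hi, h⟩
    · rintro ⟨i, hi, h⟩
      rcases Nat.lt_succ_iff_lt_or_eq.1 hi with h' | rfl
      · exact Or.inr ⟨i, h', h⟩
      · exact Or.inl h

theorem bool_imp {a b : Bool} (h : (!a || b) = true) (ha : a = true) : b = true := by
  rw [ha] at h
  simpa using h

theorem S_inj {s t : ℕ} (hs : s < 256) (ht : t < 256) (h : S s = S t) : s = t := by
  apply Nat.eq_of_testBit_eq
  intro i
  by_cases hi : i < 8
  · have : ((⟨i, hi⟩ : Fin 8) ∈ S s) ↔ ((⟨i, hi⟩ : Fin 8) ∈ S t) := by rw [h]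
    simp only [S, mem_ofPred_eq] at this
    exact Bool.eq_iff_iff.2 this
  · have h8 : 2 ^ 8 ≤ 2 ^ i := Nat.pow_le_pow_right (by norm_num) (not_lt.1 hi)
    rw [Nat.testBit_lt_two_pow (by omega), Nat.testBit_lt_two_pow (by omega)]

theorem exists_S (Z : Set (Fin 8)) : ∃ s < 256, Z = S s := by
  classical
  let f : Fin 8 → Bool := fun i => decide (i ∈ Z)
  have hf : ∀ g : Fin 8 → Bool, ∃ s < 256, ∀ i : Fin 8, s.testBit i = g i := by
    intro g
    refine ⟨(∑ i : Fin 8, if g i then 2 ^ (i : ℕ) else 0), ?_, ?_⟩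
    · calc (∑ i : Fin 8, if g i then 2 ^ (i : ℕ) else 0) ≤ ∑ i : Fin 8, 2 ^ (i : ℕ) :=
            Finset.sum_le_sum fun i _ => by split_ifs <;> simp
        _ < 256 := by decide
    · revert g
      decide +kernel
  obtain ⟨s, hs, h⟩ := hf f
  refine ⟨s, hs, ?_⟩
  ext i
  simp only [S, mem_ofPred_eq, h i, f, decide_eq_true_eq]

/-! ### Matroids given by tables -/

theorem tab_lt {tab s : ℕ} (htab : tab < 2 ^ 256) (h : tab.testBit s = true) : s < 256 := by
  by_contra hcon
  have h1 : (2 : ℕ) ^ 256 ≤ 2 ^ s := Nat.pow_le_pow_right (by norm_num) (not_lt.1 hcon)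
  rw [Nat.testBit_lt_two_pow (lt_of_lt_of_le htab h1)] at h
  exact absurd h (by decide)

/-- the sets with codes in the table -/
def IsB (tab : ℕ) (B : Set (Fin 8)) : Prop := ∃ s : ℕ, tab.testBit s = true ∧ B = S s

theorem isB_iff {tab s : ℕ} (htab : tab < 2 ^ 256) (hs : s < 256) :
    IsB tab (S s) ↔ tab.testBit s = true := by
  constructor
  · rintro ⟨t, ht, h⟩
    rw [S_inj hs (tab_lt htab ht) h]
    exact ht
  · intro h
    exact ⟨s, h, rfl⟩

def exchCheck (tab : ℕ) : Bool :=
  allN 256 fun s => !tab.testBit s || allN 256 fun t => !tab.testBit t ||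
    allN 8 fun a => !(s.testBit a && !t.testBit a) ||
      anyN 8 fun b => t.testBit b && (!s.testBit b && tab.testBit ((s ^^^ 2 ^ a) ^^^ 2 ^ b))

theorem exchange {tab : ℕ} (htab : tab < 2 ^ 256) (hc : exchCheck tab = true) :
    Matroid.ExchangeProperty (IsB tab) := by
  rintro _ _ ⟨s, hs, rfl⟩ ⟨t, ht, rfl⟩ a ⟨has, hat⟩
  have h1 := bool_imp ((allN_iff _ _).1 hc s (tab_lt htab hs)) hs
  have h2 := bool_imp ((allN_iff _ _).1 h1 t (tab_lt htab ht)) ht
  have hsa : s.testBit a = true := has
  have hta : t.testBit a = false := by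
    have : ¬ t.testBit a = true := hat
    simpa using this
  have h3 := bool_imp ((allN_iff _ _).1 h2 a a.2) (by rw [hsa, hta]; rfl)
  obtain ⟨b, hb, h4⟩ := (anyN_iff _ _).1 h3
  simp only [Bool.and_eq_true, Bool.not_eq_true'] at h4
  obtain ⟨h5, h6, h7⟩ := h4
  refine ⟨⟨b, hb⟩, ⟨h5, ?_⟩, _, h7, ?_⟩
  · show ¬ s.testBit b = true
    rw [h6]
    decide
  · ext i
    simp only [S, mem_insert_iff, mem_sdiff, mem_singleton_iff, mem_ofPred_eq, Nat.testBit_xor,
      Nat.testBit_two_pow]
    by_cases hib : i = ⟨b, hb⟩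
    · subst hib
      have hab : (a : ℕ) ≠ b := by
        rintro rfl
        rw [hsa] at h6
        exact absurd h6 (by decide)
      simp [h6, hab]
    · have hib' : b ≠ (i : ℕ) := fun h => hib (Fin.ext h.symm)
      by_cases hia : i = a
      · subst hia
        simp [hsa, hib, hib']
      · have hia' : (a : ℕ) ≠ i := fun h => hia (Fin.ext h.symm)
        simp [hib, hib', hia, hia']

/-- the table of `M`: all `3`-sets except the four lines -/
def tab1 : ℕ := 26960359788324348720949767030734241706367231428990559567628779153408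

/-- the table of `M'` -/
def tab2 : ℕ := 26960359788324348720949767008956170223427169766153919304596075839488

theorem tab1_lt : tab1 < 2 ^ 256 := by decide +kernel
theorem tab2_lt : tab2 < 2 ^ 256 := by decide +kernel
theorem check1 : exchCheck tab1 = true := by decide +kernel
theorem check2 : exchCheck tab2 = true := by decide +kernel

/-- the matroid `M` -/
def M : Matroid (Fin 8) :=
  Matroid.ofIsBaseOfFinite (E := univ) (toFinite _) (IsB tab1)
    ⟨S 67, 67, by decide +kernel, rfl⟩ (exchange tab1_lt check1) (fun _ _ => subset_univ _)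

/-- the matroid `M'` -/
def M' : Matroid (Fin 8) :=
  Matroid.ofIsBaseOfFinite (E := univ) (toFinite _) (IsB tab2)
    ⟨S 67, 67, by decide +kernel, rfl⟩ (exchange tab2_lt check2) (fun _ _ => subset_univ _)

theorem M_isBase {s : ℕ} (hs : s < 256) : M.IsBase (S s) ↔ tab1.testBit s = true :=
  isB_iff tab1_lt hs

theorem M'_isBase {s : ℕ} (hs : s < 256) : M'.IsBase (S s) ↔ tab2.testBit s = true :=
  isB_iff tab2_lt hs

/-- for every proper nonempty `t` there are two bases whose mix along `t` is not a basis -/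
def connCheck (tab : ℕ) : Bool :=
  allN 256 fun t => (t == 0 || t == 255) || anyN 256 fun a => tab.testBit a &&
    anyN 256 fun b => tab.testBit b && !tab.testBit ((a &&& t) ||| (b &&& (255 ^^^ t)))

theorem conn1 : connCheck tab1 = true := by decide +kernel
theorem conn2 : connCheck tab2 = true := by decide +kernel

theorem connected_of_check {tab : ℕ} (htab : tab < 2 ^ 256) (hc : connCheck tab = true)
    {N : Matroid (Fin 8)} (hE : N.E = univ) (hN : ∀ B, N.IsBase B ↔ IsB tab B) : Connected N := by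
  refine ⟨by rw [hE]; exact univ_nonempty, ?_⟩
  rintro ⟨N₁, N₂, h, h1, h2, rfl⟩
  obtain ⟨t, ht, htE⟩ := exists_S N₁.E
  have hE2 : N₂.E = (N₁.E)ᶜ := by
    have h3 : N₁.E ∪ N₂.E = univ := by rw [← hE, Matroid.disjointSum_ground_eq]
    ext i
    constructor
    · intro hi hi'
      exact (Set.disjoint_left.1 h hi' hi)
    · intro hi
      have : i ∈ N₁.E ∪ N₂.E := by rw [h3]; exact mem_univ i
      exact this.resolve_left hi
  have h4 := (allN_iff _ _).1 hc t ht
  rw [Bool.or_eq_true, Bool.or_eq_true, beq_iff_eq, beq_iff_eq] at h4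
  rcases h4 with (h4 | h4) | h4
  · subst h4
    obtain ⟨i, hi⟩ := h1
    rw [htE] at hi
    simp [S] at hi
  · subst h4
    obtain ⟨i, hi⟩ := h2
    rw [hE2, htE] at hi
    apply hi
    have h255 : ∀ i : Fin 8, Nat.testBit 255 i = true := by decide
    exact h255 i
  · obtain ⟨a, ha, h5⟩ := (anyN_iff _ _).1 h4
    rw [Bool.and_eq_true] at h5
    obtain ⟨b, hb, h6⟩ := (anyN_iff _ _).1 h5.2
    rw [Bool.and_eq_true, Bool.not_eq_true'] at h6
    have hA := (hN (S a)).2 ⟨a, h5.1, rfl⟩
    have hB := (hN (S b)).2 ⟨b, h6.1, rfl⟩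
    rw [Matroid.disjointSum_isBase_iff] at hA hB
    have hmask : S ((a &&& t) ||| (b &&& (255 ^^^ t))) = (S a ∩ N₁.E) ∪ (S b ∩ N₂.E) := by
      rw [hE2, htE]
      ext i
      have h255 : Nat.testBit 255 i = true := by revert i; decide
      simp [S, Nat.testBit_or, Nat.testBit_and, Nat.testBit_xor, h255]
    have hmix : (N₁.disjointSum N₂ h).IsBase (S ((a &&& t) ||| (b &&& (255 ^^^ t)))) := by
      rw [Matroid.disjointSum_isBase_iff, hmask]
      refine ⟨?_, ?_, ?_⟩
      · have : ((S a ∩ N₁.E) ∪ (S b ∩ N₂.E)) ∩ N₁.E = S a ∩ N₁.E := by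
          ext i
          simp only [mem_inter_iff, mem_union]
          constructor
          · rintro ⟨⟨h7, h8⟩ | ⟨h7, h8⟩, h9⟩
            · exact ⟨h7, h8⟩
            · exact absurd h8 (Set.disjoint_left.1 h h9)
          · rintro ⟨h7, h8⟩
            exact ⟨Or.inl ⟨h7, h8⟩, h8⟩
        rw [this]
        exact hA.1
      · have : ((S a ∩ N₁.E) ∪ (S b ∩ N₂.E)) ∩ N₂.E = S b ∩ N₂.E := by
          ext i
          simp only [mem_inter_iff, mem_union]
          constructor
          · rintro ⟨⟨h7, h8⟩ | ⟨h7, h8⟩, h9⟩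
            · exact absurd h9 (Set.disjoint_left.1 h h8)
            · exact ⟨h7, h8⟩
          · rintro ⟨h7, h8⟩
            exact ⟨Or.inr ⟨h7, h8⟩, h8⟩
        rw [this]
        exact hB.2.1
      · rw [← Matroid.disjointSum_ground_eq (h := h), hE]
        exact subset_univ _
    have hlt : (a &&& t) ||| (b &&& (255 ^^^ t)) < 256 :=
      Nat.or_lt_two_pow (n := 8) (lt_of_le_of_lt Nat.and_le_left ha)
        (lt_of_le_of_lt Nat.and_le_left hb)
    have := (isB_iff htab hlt).1 ((hN _).1 hmix)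
    rw [h6.2] at this
    exact absurd this (by decide)

theorem M_connected : Connected M := connected_of_check tab1_lt conn1 rfl fun _ => Iff.rfl
theorem M'_connected : Connected M' := connected_of_check tab2_lt conn2 rfl fun _ => Iff.rfl

/-! ### Polytopes -/

section Poly

variable {n : ℕ}

theorem ind_apply (B : Set (Fin n)) (i : Fin n) [Decidable (i ∈ B)] :
    ind B i = if i ∈ B then 1 else 0 := by
  unfold ind
  rw [indicator_apply]
  rfl

theorem ind_mem {N : Matroid (Fin n)} {B : Set (Fin n)} (h : N.IsBase B) : ind B ∈ polytope N :=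
  subset_convexHull ℝ _ ⟨B, h, rfl⟩

/-- A bound for a linear functional on the vertices holds on the polytope. -/
theorem lin_le {N : Matroid (Fin n)} (c : Fin n → ℝ) (m : ℝ)
    (h : ∀ B, N.IsBase B → ∑ i, c i * ind B i ≤ m) : ∀ x ∈ polytope N, ∑ i, c i * x i ≤ m := by
  have hconv : Convex ℝ {x : Fin n → ℝ | ∑ i, c i * x i ≤ m} := by
    refine convex_halfSpace_le ⟨fun x y => ?_, fun a x => ?_⟩ m
    · simp [mul_add, Finset.sum_add_distrib]
    · simp only [Pi.smul_apply, smul_eq_mul, Finset.mul_sum]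
      exact Finset.sum_congr rfl fun i _ => by ring
  intro x hx
  exact convexHull_min (by rintro _ ⟨B, hB, rfl⟩; exact h B hB) hconv hx

/-- The vertices of the cube in the polytope come from bases. -/
theorem isBase_of_ind_mem {N : Matroid (Fin n)} {B : Set (Fin n)} (h : ind B ∈ polytope N) :
    N.IsBase B := by
  classical
  by_contra hB
  let c : Fin n → ℝ := fun i => if i ∈ B then 1 else -1
  have hle : ∀ B', N.IsBase B' → ∑ i, c i * ind B' i ≤ (∑ i, if i ∈ B then (1 : ℝ) else 0) - 1 := by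
    intro B' hB'
    obtain ⟨j, hj⟩ : ∃ j, ¬ (j ∈ B ↔ j ∈ B') := by
      by_contra hcon
      push Not at hcon
      have : B = B' := by
        ext j
        exact hcon j
      exact hB (this ▸ hB')
    have h1 : ∀ i, c i * ind B' i ≤ (if i ∈ B then (1 : ℝ) else 0) - if i = j then 1 else 0 := by
      intro i
      rw [ind_apply]
      by_cases hij : i = j
      · subst hij
        by_cases h2 : i ∈ B <;> by_cases h3 : i ∈ B' <;> simp_all [c]
      · by_cases h2 : i ∈ B <;> by_cases h3 : i ∈ B' <;> simp [c, h2, h3, hij]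
    calc ∑ i, c i * ind B' i ≤ ∑ i, ((if i ∈ B then (1 : ℝ) else 0) - if i = j then 1 else 0) :=
          Finset.sum_le_sum fun i _ => h1 i
      _ = _ := by rw [Finset.sum_sub_distrib]; simp
  have h2 := lin_le c _ hle _ h
  have h3 : ∑ i, c i * ind B i = ∑ i, if i ∈ B then (1 : ℝ) else 0 := by
    refine Finset.sum_congr rfl fun i _ => ?_
    rw [ind_apply]
    by_cases h4 : i ∈ B <;> simp [c, h4]
  linarith

theorem isClosed_polytope (N : Matroid (Fin n)) : IsClosed (polytope N) := by
  apply Set.Finite.isClosed_convexHull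
  have : {x | ∃ B, N.IsBase B ∧ x = ind B} = ind '' {B | N.IsBase B} := by
    ext x
    constructor
    · rintro ⟨B, hB, rfl⟩
      exact ⟨B, hB, rfl⟩
    · rintro ⟨B, hB, rfl⟩
      exact ⟨B, hB, rfl⟩
  rw [this]
  exact (toFinite _).image _

theorem polytope_mono {N N' : Matroid (Fin n)} (h : ∀ B, N.IsBase B → N'.IsBase B) :
    polytope N ⊆ polytope N' :=
  convexHull_mono (by rintro _ ⟨B, hB, rfl⟩; exact ⟨B, h B hB, rfl⟩)

end Poly

/-! ### A matroid argument -/

/-- a matroid of rank three: an element outside a closure gives a basis -/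
theorem mem_cl {N : Matroid (Fin 8)} (hE : N.E = univ) (hr : ∀ B, N.IsBase B → B.encard = 3)
    {p q r : Fin 8} (hpq : p ≠ q) (hI : N.Indep {p, q}) (hrp : r ≠ p) (hrq : r ≠ q)
    (h : ¬ N.IsBase {r, p, q}) : r ∈ N.closure {p, q} := by
  by_contra hcon
  apply h
  have h1 : N.Indep (insert r {p, q}) :=
    ((hI.notMem_closure_iff (by rw [hE]; exact mem_univ r)).1 hcon).1
  obtain ⟨B, hB, hsub⟩ := h1.exists_isBase_superset
  have h2 := hr B hB
  have h3 : (insert r {p, q} : Set (Fin 8)).encard = 3 := by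
    rw [encard_insert_of_notMem (by simp [hrp, hrq]), encard_pair hpq]
    norm_num
  have h4 : (insert r {p, q} : Set (Fin 8)) = B :=
    (toFinite B).eq_of_subset_of_encard_le' hsub (by rw [h2, h3])
  exact h4 ▸ hB

/-- a basis of a matroid of rank three is not contained in the closure of a pair -/
theorem not_sub {N : Matroid (Fin 8)} (hr : ∀ B, N.IsBase B → B.encard = 3) {p q : Fin 8}
    {B : Set (Fin 8)} (hB : N.IsBase B) (h : B ⊆ N.closure {p, q}) : False := by
  have h1 := hB.indep.encard_le_eRk_of_subset h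
  rw [Matroid.eRk_closure_eq, hr B hB] at h1
  have h2 := N.eRk_le_encard {p, q}
  have h3 : ({p, q} : Set (Fin 8)).encard ≤ 2 := by
    have := encard_insert_le ({q} : Set (Fin 8)) p
    rw [encard_singleton] at this
    exact this.trans (by norm_num)
  have h4 := h1.trans (h2.trans h3)
  exact absurd h4 (by norm_num)

theorem matroid_argument (N : Matroid (Fin 8)) (hE : N.E = univ)
    (b016 : N.IsBase {0, 1, 6}) (b156 : N.IsBase {1, 5, 6})
    (b256 : N.IsBase {2, 5, 6}) (b346 : N.IsBase {3, 4, 6})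
    (n126 : ¬ N.IsBase {6, 1, 2}) (n012 : ¬ N.IsBase {0, 1, 2}) (n034 : ¬ N.IsBase {0, 3, 4})
    (n135 : ¬ N.IsBase {3, 1, 5}) (n245 : ¬ N.IsBase {4, 2, 5})
    (B : Set (Fin 8)) (hB : N.IsBase B) (hBA : ∀ i ∈ B, i < 6) : False := by
  have hr : ∀ B, N.IsBase B → B.encard = 3 := by
    intro B' hB'
    rw [hB'.encard_eq_encard_of_isBase b016, encard_insert_of_notMem (by decide),
      encard_pair (by decide)]
    norm_num
  by_cases hI : N.Indep {1, 2}
  · have h6 : (6 : Fin 8) ∈ N.closure {1, 2} :=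
      mem_cl hE hr (by decide) hI (by decide) (by decide) n126
    have h0 : (0 : Fin 8) ∈ N.closure {1, 2} :=
      mem_cl hE hr (by decide) hI (by decide) (by decide) n012
    have h1 : (1 : Fin 8) ∈ N.closure {1, 2} :=
      N.mem_closure_of_mem (by simp) (by rw [hE]; exact subset_univ _)
    refine not_sub (p := 1) (q := 2) hr b016 ?_
    rintro i (rfl | rfl | rfl)
    · exact h0
    · exact h1
    · exact h6
  · have i15 : N.Indep {1, 5} := b156.indep.subset (by intro i; simp; tauto)
    have i25 : N.Indep {2, 5} := b256.indep.subset (by intro i; simp; tauto)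
    have i34 : N.Indep {3, 4} := b346.indep.subset (by intro i; simp; tauto)
    have i1 : N.Indep {1} := i15.subset (by simp)
    have hsub : ∀ X : Set (Fin 8), X ⊆ N.E := fun X => by rw [hE]; exact subset_univ _
    have h1 : (1 : Fin 8) ∈ N.closure {1, 5} := N.mem_closure_of_mem (by simp) (hsub _)
    have h5 : (5 : Fin 8) ∈ N.closure {1, 5} := N.mem_closure_of_mem (by simp) (hsub _)
    have h21 : (2 : Fin 8) ∈ N.closure {1} := by
      by_contra hcon
      apply hI
      have := ((i1.notMem_closure_iff (hsub univ (mem_univ 2))).1 hcon).1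
      rw [pair_comm]
      exact this
    have h2 : (2 : Fin 8) ∈ N.closure {1, 5} :=
      N.closure_subset_closure (by simp) h21
    have h3 : (3 : Fin 8) ∈ N.closure {1, 5} :=
      mem_cl hE hr (by decide) i15 (by decide) (by decide) n135
    have h4' : (4 : Fin 8) ∈ N.closure {2, 5} :=
      mem_cl hE hr (by decide) i25 (by decide) (by decide) n245
    have h4 : (4 : Fin 8) ∈ N.closure {1, 5} := by
      have : N.closure {2, 5} ⊆ N.closure (N.closure {1, 5}) := by
        apply N.closure_subset_closure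
        rintro i (rfl | rfl)
        · exact h2
        · exact h5
      rw [Matroid.closure_closure] at this
      exact this h4'
    have h0' : (0 : Fin 8) ∈ N.closure {3, 4} :=
      mem_cl hE hr (by decide) i34 (by decide) (by decide) n034
    have h0 : (0 : Fin 8) ∈ N.closure {1, 5} := by
      have : N.closure {3, 4} ⊆ N.closure (N.closure {1, 5}) := by
        apply N.closure_subset_closure
        rintro i (rfl | rfl)
        · exact h3
        · exact h4
      rw [Matroid.closure_closure] at this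
      exact this h0'
    refine not_sub (p := 1) (q := 5) hr hB (fun i hi => ?_)
    have hall : ∀ i : Fin 8, i < 6 → i = 0 ∨ i = 1 ∨ i = 2 ∨ i = 3 ∨ i = 4 ∨ i = 5 := by decide
    rcases hall i (hBA i hi) with rfl | rfl | rfl | rfl | rfl | rfl
    · exact h0
    · exact h1
    · exact h2
    · exact h3
    · exact h4
    · exact h5

/-! ### The main argument -/

theorem S7 : S 7 = {0, 1, 2} := by
  ext i; simp only [S, mem_ofPred_eq, mem_insert_iff, mem_singleton_iff]; revert i; decide
theorem S25 : S 25 = {0, 3, 4} := by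
  ext i; simp only [S, mem_ofPred_eq, mem_insert_iff, mem_singleton_iff]; revert i; decide
theorem S42 : S 42 = {3, 1, 5} := by
  ext i; simp only [S, mem_ofPred_eq, mem_insert_iff, mem_singleton_iff]; revert i; decide
theorem S52 : S 52 = {4, 2, 5} := by
  ext i; simp only [S, mem_ofPred_eq, mem_insert_iff, mem_singleton_iff]; revert i; decide
theorem S26 : S 26 = {1, 3, 4} := by
  ext i; simp only [S, mem_ofPred_eq, mem_insert_iff, mem_singleton_iff]; revert i; decide
theorem S67 : S 67 = {0, 1, 6} := by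
  ext i; simp only [S, mem_ofPred_eq, mem_insert_iff, mem_singleton_iff]; revert i; decide
theorem S70 : S 70 = {6, 1, 2} := by
  ext i; simp only [S, mem_ofPred_eq, mem_insert_iff, mem_singleton_iff]; revert i; decide
theorem S74 : S 74 = {1, 3, 6} := by
  ext i; simp only [S, mem_ofPred_eq, mem_insert_iff, mem_singleton_iff]; revert i; decide
theorem S84 : S 84 = {2, 4, 6} := by
  ext i; simp only [S, mem_ofPred_eq, mem_insert_iff, mem_singleton_iff]; revert i; decide
theorem S88 : S 88 = {3, 4, 6} := by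
  ext i; simp only [S, mem_ofPred_eq, mem_insert_iff, mem_singleton_iff]; revert i; decide
theorem S98 : S 98 = {1, 5, 6} := by
  ext i; simp only [S, mem_ofPred_eq, mem_insert_iff, mem_singleton_iff]; revert i; decide
theorem S100 : S 100 = {2, 5, 6} := by
  ext i; simp only [S, mem_ofPred_eq, mem_insert_iff, mem_singleton_iff]; revert i; decide

theorem lin_triple (c : Fin 8 → ℝ) {p q r : Fin 8} (h1 : p ≠ q) (h2 : p ≠ r) (h3 : q ≠ r) :
    ∑ i, c i * ind ({p, q, r} : Set (Fin 8)) i = c p + c q + c r := by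
  classical
  have e : ∀ i, c i * ind ({p, q, r} : Set (Fin 8)) i =
      if i ∈ ({p, q, r} : Finset (Fin 8)) then c i else 0 := by
    intro i
    rw [ind_apply]
    by_cases h : i = p ∨ i = q ∨ i = r
    · rw [if_pos (by simpa using h), if_pos (by simpa using h), mul_one]
    · rw [if_neg (by simpa using h), if_neg (by simpa using h), mul_zero]
  rw [Finset.sum_congr rfl fun i _ => e i, Finset.sum_ite_mem, Finset.univ_inter,
    Finset.sum_insert (by simp [h1, h2]), Finset.sum_insert (by simp [h3]), Finset.sum_singleton]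
  ring

theorem sum_ind (B : Set (Fin 8)) : ∑ i, ind B i = (B.ncard : ℝ) := by
  classical
  simp only [ind_apply]
  rw [Finset.sum_boole, Set.ncard_eq_toFinset_card']
  congr 2
  ext i
  simp

/-- the point in the relative interior of the facet `x(A) = 2` of `P_{M'}` -/
noncomputable def z : Fin 8 → ℝ :=
  (1 / 6 : ℝ) • ind {0, 1, 6} + ((1 / 6 : ℝ) • ind {1, 3, 6} + ((1 / 6 : ℝ) • ind {2, 4, 6} +
    ((1 / 6 : ℝ) • ind {3, 4, 6} + ((1 / 6 : ℝ) • ind {1, 5, 6} + (1 / 6 : ℝ) • ind {2, 5, 6}))))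

theorem lin_z (c : Fin 8 → ℝ) : ∑ i, c i * z i =
    1 / 6 * (∑ i, c i * ind {0, 1, 6} i + ∑ i, c i * ind {1, 3, 6} i +
      ∑ i, c i * ind {2, 4, 6} i + ∑ i, c i * ind {3, 4, 6} i + ∑ i, c i * ind {1, 5, 6} i +
      ∑ i, c i * ind {2, 5, 6} i) := by
  simp only [← Finset.sum_add_distrib, Finset.mul_sum]
  refine Finset.sum_congr rfl fun i _ => ?_
  simp only [z, Pi.add_apply, Pi.smul_apply, smul_eq_mul]
  ring

theorem z_mem {P : Set (Fin 8 → ℝ)} (hP : Convex ℝ P) (h1 : ind {0, 1, 6} ∈ P)
    (h2 : ind {1, 3, 6} ∈ P) (h3 : ind {2, 4, 6} ∈ P) (h4 : ind {3, 4, 6} ∈ P)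
    (h5 : ind {1, 5, 6} ∈ P) (h6 : ind {2, 5, 6} ∈ P) : z ∈ P := by
  have e : z = ∑ k : Fin 6, (1 / 6 : ℝ) • (![ind {0, 1, 6}, ind {1, 3, 6}, ind {2, 4, 6},
      ind {3, 4, 6}, ind {1, 5, 6}, ind {2, 5, 6}] : Fin 6 → Fin 8 → ℝ) k := by
    rw [Fin.sum_univ_six]
    simp only [z, Matrix.cons_val]
    abel
  rw [e]
  refine hP.sum_mem (fun _ _ => by norm_num) (by simp) ?_
  intro k _
  fin_cases k
  · exact h1
  · exact h2
  · exact h3
  · exact h4
  · exact h5
  · exact h6

/-- the six vertices lie in every face containing `z` -/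
theorem face_vertices {P G : Set (Fin 8 → ℝ)} (hG : IsFace P G) (hz : z ∈ G)
    (h1 : ind {0, 1, 6} ∈ P) (h2 : ind {1, 3, 6} ∈ P) (h3 : ind {2, 4, 6} ∈ P)
    (h4 : ind {3, 4, 6} ∈ P) (h5 : ind {1, 5, 6} ∈ P) (h6 : ind {2, 5, 6} ∈ P) :
    (ind {0, 1, 6} ∈ G ∧ ind {1, 3, 6} ∈ G ∧ ind {2, 4, 6} ∈ G ∧ ind {3, 4, 6} ∈ G ∧
      ind {1, 5, 6} ∈ G ∧ ind {2, 5, 6} ∈ G) ∧ (ind {6, 1, 2} ∈ P → ind {6, 1, 2} ∈ G) := by
  rcases hG with hG | ⟨c, hG⟩
  · rw [hG] at hz
    exact absurd hz (notMem_empty _)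
  rw [hG] at hz ⊢
  obtain ⟨hzP, hmax⟩ := hz
  have a1 := hmax _ h1
  have a2 := hmax _ h2
  have a3 := hmax _ h3
  have a4 := hmax _ h4
  have a5 := hmax _ h5
  have a6 := hmax _ h6
  have az := lin_z c
  refine ⟨⟨⟨h1, fun y hy => (hmax y hy).trans ?_⟩, ⟨h2, fun y hy => (hmax y hy).trans ?_⟩,
    ⟨h3, fun y hy => (hmax y hy).trans ?_⟩, ⟨h4, fun y hy => (hmax y hy).trans ?_⟩,
    ⟨h5, fun y hy => (hmax y hy).trans ?_⟩, ⟨h6, fun y hy => (hmax y hy).trans ?_⟩⟩,
    fun h7 => ⟨h7, fun y hy => (hmax y hy).trans ?_⟩⟩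
  · linarith
  · linarith
  · linarith
  · linarith
  · linarith
  · linarith
  · have e2 := lin_triple c (show (1 : Fin 8) ≠ 3 by decide) (show (1 : Fin 8) ≠ 6 by decide)
      (show (3 : Fin 8) ≠ 6 by decide)
    have e3 := lin_triple c (show (2 : Fin 8) ≠ 4 by decide) (show (2 : Fin 8) ≠ 6 by decide)
      (show (4 : Fin 8) ≠ 6 by decide)
    have e4 := lin_triple c (show (3 : Fin 8) ≠ 4 by decide) (show (3 : Fin 8) ≠ 6 by decide)
      (show (4 : Fin 8) ≠ 6 by decide)
    have e7 := lin_triple c (show (6 : Fin 8) ≠ 1 by decide) (show (6 : Fin 8) ≠ 2 by decide)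
      (show (1 : Fin 8) ≠ 2 by decide)
    linarith

def subCheck : Bool := allN 256 fun s => !tab2.testBit s || tab1.testBit s

theorem subCheck_true : subCheck = true := by decide +kernel

theorem sub_bases (B : Set (Fin 8)) (h : M'.IsBase B) : M.IsBase B := by
  obtain ⟨s, hs, rfl⟩ := exists_S B
  rw [M_isBase hs]
  exact bool_imp ((allN_iff _ _).1 subCheck_true s hs) ((M'_isBase hs).1 h)

/-- the functional `x(A)` -/
noncomputable def cA : Fin 8 → ℝ := fun i => if (i : ℕ) < 6 then 1 else 0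

theorem main (𝒟 : Set (Matroid (Fin 8))) (hD : IsSubdivision M 𝒟) (N0 : Matroid (Fin 8))
    (hN0 : N0 ∈ 𝒟) (hP : polytope N0 = polytope M') : False := by
  have v1 : ind {0, 1, 6} ∈ polytope M' :=
    ind_mem (S67 ▸ (M'_isBase (s := 67) (by norm_num)).2 (by decide +kernel))
  have v2 : ind {1, 3, 6} ∈ polytope M' :=
    ind_mem (S74 ▸ (M'_isBase (s := 74) (by norm_num)).2 (by decide +kernel))
  have v3 : ind {2, 4, 6} ∈ polytope M' :=
    ind_mem (S84 ▸ (M'_isBase (s := 84) (by norm_num)).2 (by decide +kernel))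
  have v4 : ind {3, 4, 6} ∈ polytope M' :=
    ind_mem (S88 ▸ (M'_isBase (s := 88) (by norm_num)).2 (by decide +kernel))
  have v5 : ind {1, 5, 6} ∈ polytope M' :=
    ind_mem (S98 ▸ (M'_isBase (s := 98) (by norm_num)).2 (by decide +kernel))
  have v6 : ind {2, 5, 6} ∈ polytope M' :=
    ind_mem (S100 ▸ (M'_isBase (s := 100) (by norm_num)).2 (by decide +kernel))
  have hw : ind {1, 3, 4} ∈ polytope M :=
    ind_mem (S26 ▸ (M_isBase (s := 26) (by norm_num)).2 (by decide +kernel))
  have hzM' : z ∈ polytope M' := z_mem (convex_convexHull ℝ _) v1 v2 v3 v4 v5 v6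
  have hzM : z ∈ polytope M := polytope_mono sub_bases hzM'
  have hAz : ∑ i, cA i * z i = 2 := by
    rw [lin_z, lin_triple _ (by decide) (by decide) (by decide),
      lin_triple _ (by decide) (by decide) (by decide),
      lin_triple _ (by decide) (by decide) (by decide),
      lin_triple _ (by decide) (by decide) (by decide),
      lin_triple _ (by decide) (by decide) (by decide),
      lin_triple _ (by decide) (by decide) (by decide)]
    simp only [cA]
    norm_num
  have hAw : ∑ i, cA i * ind ({1, 3, 4} : Set (Fin 8)) i = 3 := by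
    rw [lin_triple _ (by decide) (by decide) (by decide)]
    simp only [cA]
    norm_num
  -- cells reaching the other side
  let 𝒟' : Set (Matroid (Fin 8)) := {N | N ∈ 𝒟 ∧ ∃ x ∈ polytope N, 2 < ∑ i, cA i * x i}
  have hfin : 𝒟'.Finite := hD.finite.subset fun N hN => hN.1
  have hclosed : IsClosed (⋃ N ∈ 𝒟', polytope N) :=
    hfin.isClosed_biUnion fun N _ => isClosed_polytope N
  let y : ℕ → Fin 8 → ℝ := fun k => z + (1 / ((k : ℝ) + 1)) • (ind {1, 3, 4} - z)
  have hy : ∀ k, y k ∈ ⋃ N ∈ 𝒟', polytope N := by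
    intro k
    have hk : (0 : ℝ) < 1 / ((k : ℝ) + 1) := by positivity
    have hk1 : 1 / ((k : ℝ) + 1) ≤ 1 := by
      rw [div_le_one (by positivity)]
      linarith [show (0 : ℝ) ≤ k from Nat.cast_nonneg k]
    have hyM : y k ∈ polytope M := by
      have := (convex_convexHull ℝ _).add_smul_sub_mem hzM hw ⟨hk.le, hk1⟩
      exact this
    have hyA : 2 < ∑ i, cA i * y k i := by
      have e : ∑ i, cA i * y k i = ∑ i, cA i * z i + 1 / ((k : ℝ) + 1) *
          (∑ i, cA i * ind ({1, 3, 4} : Set (Fin 8)) i - ∑ i, cA i * z i) := by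
        rw [← Finset.sum_sub_distrib, Finset.mul_sum, ← Finset.sum_add_distrib]
        refine Finset.sum_congr rfl fun i _ => ?_
        simp only [y, Pi.add_apply, Pi.smul_apply, Pi.sub_apply, smul_eq_mul]
        ring
      rw [e, hAz, hAw]
      linarith
    rw [← hD.union] at hyM
    simp only [mem_iUnion] at hyM ⊢
    obtain ⟨N, hN, hyN⟩ := hyM
    exact ⟨N, ⟨hN, y k, hyN, hyA⟩, hyN⟩
  have hlim : Filter.Tendsto y Filter.atTop (nhds z) := by
    have h1 : Filter.Tendsto (fun k : ℕ => 1 / ((k : ℝ) + 1)) Filter.atTop (nhds 0) :=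
      tendsto_one_div_add_atTop_nhds_zero_nat
    have h2 := (h1.smul_const (ind {1, 3, 4} - z)).const_add z
    rwa [zero_smul, add_zero] at h2
  have hzU := hclosed.mem_of_tendsto hlim (Filter.Eventually.of_forall hy)
  simp only [mem_iUnion] at hzU
  obtain ⟨N, ⟨hN, x, hx, hxA⟩, hzN⟩ := hzU
  -- the bases of `N` are bases of `M`
  have hNM : ∀ B, N.IsBase B → M.IsBase B := by
    intro B hB
    apply isBase_of_ind_mem
    rw [← hD.union]
    simp only [mem_iUnion]
    exact ⟨N, hN, ind_mem hB⟩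
  -- the common face
  obtain ⟨f1, f2⟩ := hD.face N0 hN0 N hN
  have hzG : z ∈ polytope N0 ∩ polytope N := ⟨hP ▸ hzM', hzN⟩
  obtain ⟨⟨g1, g2, g3, g4, g5, g6⟩, -⟩ := face_vertices f1 hzG (hP ▸ v1) (hP ▸ v2) (hP ▸ v3)
    (hP ▸ v4) (hP ▸ v5) (hP ▸ v6)
  obtain ⟨-, g7⟩ := face_vertices f2 hzG g1.2 g2.2 g3.2 g4.2 g5.2 g6.2
  -- a basis of `N` inside `A`
  obtain ⟨B, hB, hBA⟩ : ∃ B, N.IsBase B ∧ 2 < ∑ i, cA i * ind B i := by
    by_contra hcon
    push Not at hcon
    exact absurd (lin_le cA 2 hcon x hx) (not_le.2 hxA)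
  have b016 := isBase_of_ind_mem g1.2
  have hB3 : B.ncard = 3 := by
    have h1 := hB.encard_eq_encard_of_isBase b016
    rw [encard_insert_of_notMem (by decide), encard_pair (by decide)] at h1
    rw [Set.ncard_def, h1]
    rfl
  refine matroid_argument N (hD.ground N hN) b016 (isBase_of_ind_mem g5.2)
    (isBase_of_ind_mem g6.2) (isBase_of_ind_mem g4.2) ?_ ?_ ?_ ?_ ?_ B hB ?_
  · intro h
    have h1 := (g7 (ind_mem h)).1
    rw [hP] at h1
    have h2 := isBase_of_ind_mem h1
    rw [← S70, M'_isBase (by norm_num)] at h2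
    exact absurd h2 (by decide +kernel)
  · intro h
    have h2 := hNM _ h
    rw [← S7, M_isBase (by norm_num)] at h2
    exact absurd h2 (by decide +kernel)
  · intro h
    have h2 := hNM _ h
    rw [← S25, M_isBase (by norm_num)] at h2
    exact absurd h2 (by decide +kernel)
  · intro h
    have h2 := hNM _ h
    rw [← S42, M_isBase (by norm_num)] at h2
    exact absurd h2 (by decide +kernel)
  · intro h
    have h2 := hNM _ h
    rw [← S52, M_isBase (by norm_num)] at h2
    exact absurd h2 (by decide +kernel)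
  · intro i hi
    by_contra hi6
    classical
    have h1 : ∑ j, cA j * ind B j ≤ ∑ j, (ind B j - if j = i then 1 else 0) := by
      refine Finset.sum_le_sum fun j _ => ?_
      rw [ind_apply]
      by_cases hji : j = i
      · subst hji
        have : ¬ ((j : ℕ) < 6) := fun h => hi6 (by exact_mod_cast h)
        simp [cA, this, hi]
      · by_cases hj : j ∈ B <;> simp [cA, hj, hji]
        split_ifs <;> norm_num
    rw [Finset.sum_sub_distrib, sum_ind, hB3] at h1
    simp at h1
    linarith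

/-- **Answer to Q1: yes.**  There are connected matroids `M, M'` on an `8`-element set with
`P_{M'} ⊊ P_M` such that `P_{M'}` is not a cell of any matroid subdivision of `P_M`. -/
theorem result : ∃ M M' : Matroid (Fin 8), M.E = univ ∧ M'.E = univ ∧ Connected M ∧
    Connected M' ∧ polytope M' ⊂ polytope M ∧
    ∀ 𝒟 : Set (Matroid (Fin 8)), IsSubdivision M 𝒟 → ∀ N ∈ 𝒟, polytope N ≠ polytope M' := by
  refine ⟨M, M', rfl, rfl, M_connected, M'_connected, ?_, ?_⟩
  · refine ⟨polytope_mono sub_bases, fun h => ?_⟩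
    have hw : ind {1, 3, 4} ∈ polytope M :=
      ind_mem (S26 ▸ (M_isBase (s := 26) (by norm_num)).2 (by decide +kernel))
    have h1 := isBase_of_ind_mem (h hw)
    rw [← S26, M'_isBase (by norm_num)] at h1
    exact absurd h1 (by decide +kernel)
  · intro 𝒟 hD N hN hP
    exact main 𝒟 hD N hN hP

end Pool.Agent.Results.MP_454fc7_co.NotACell
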